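import Pool.Agent.Lib.MP_e1f7e2_al.FA.Iface

/-!
# Project FA: module DIV
-/

set_option autoImplicit false

open MulOpposite

namespace Pool.Agent.Lib.MP_e1f7e2_al.FA.H10

variable {K : Type*} [Field K]

/-- left coefficient at the right word `v` -/
noncomputable def lc (v : Wd 3) (T : A2 K 3) : A K 3 :=
  MonoidAlgebra.ofCoeff (T.coeff.comapDomain (fun u => (u, op v))
    (fun _ _ _ _ h => (Prod.mk.inj h).1))

theorem lc_apply (v u : Wd 3) (T : A2 K 3) : (lc v T).coeff u = T.coeff (u, op v) := rfl

theorem ext' {f g : A K 3} (h : ∀ u, f.coeff u = g.coeff u) : f = g :=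
  MonoidAlgebra.coeff_injective (Finsupp.ext h)

theorem ext2 {f g : A2 K 3} (h : ∀ u v, f.coeff (u, op v) = g.coeff (u, op v)) : f = g :=
  MonoidAlgebra.coeff_injective (Finsupp.ext (fun p => h p.1 p.2.unop))

theorem lc_add (v : Wd 3) (S T : A2 K 3) : lc v (S + T) = lc v S + lc v T :=
  ext' fun u => rfl

theorem lc_sub (v : Wd 3) (S T : A2 K 3) : lc v (S - T) = lc v S - lc v T :=
  ext' fun u => rfl

theorem lc_zero (v : Wd 3) : lc v (0 : A2 K 3) = 0 := ext' fun u => rfl

theorem lc_smul (v : Wd 3) (c : K) (T : A2 K 3) : lc v (c • T) = c • lc v T :=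
  ext' fun u => rfl

theorem lc_sum {ι : Type*} (v : Wd 3) (s : Finset ι) (F : ι → A2 K 3) :
    lc v (∑ i ∈ s, F i) = ∑ i ∈ s, lc v (F i) := by
  classical
  induction s using Finset.induction_on with
  | empty => simp [lc_zero]
  | insert a s ha ih => rw [Finset.sum_insert ha, Finset.sum_insert ha, lc_add, ih]

theorem lc_single_same (v a : Wd 3) (c : K) :
    lc v (MonoidAlgebra.single (a, op v) c) = MonoidAlgebra.single a c := by
  classical
  refine ext' fun u => ?_
  rw [lc_apply, MonoidAlgebra.coeff_single, Finsupp.single_apply, MonoidAlgebra.coeff_single,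
    Finsupp.single_apply]
  by_cases h2 : a = u
  · subst h2; simp
  · rw [if_neg h2, if_neg]
    intro h3; exact h2 (Prod.mk.inj h3).1

theorem lc_single_ne (v a b : Wd 3) (c : K) (h : b ≠ v) :
    lc v (MonoidAlgebra.single (a, op b) c) = 0 := by
  classical
  refine ext' fun u => ?_
  rw [lc_apply, MonoidAlgebra.coeff_single, Finsupp.single_apply, if_neg]
  · rfl
  · intro h3
    exact h (op_injective (Prod.mk.inj h3).2)

theorem inl_single (a : Wd 3) (c : K) :
    inl (MonoidAlgebra.single a c : A K 3) = MonoidAlgebra.single (a, 1) c := by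
  have h : ∀ a : Wd 3, (FreeMonoid.lift (fun i : Fin 3 =>
      (MonoidAlgebra.single (FreeMonoid.of i, 1) 1 : A2 K 3))) a =
      MonoidAlgebra.single (a, 1) 1 := by
    intro a
    induction a using FreeMonoid.inductionOn' with
    | one => rw [map_one]; rfl
    | of_mul x xs ih =>
      rw [map_mul, FreeMonoid.lift_eval_of, ih, MonoidAlgebra.single_mul_single]
      rw [one_mul, Prod.mk_mul_mk, one_mul]
  unfold inl evl
  rw [MonoidAlgebra.lift_single, h, MonoidAlgebra.smul_single, smul_eq_mul, mul_one]

theorem inr_single (a : Wd 3) (c : K) :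
    inr (MonoidAlgebra.single a c : A K 3) = MonoidAlgebra.single (1, op a) c := by
  have h : ∀ a : Wd 3, (FreeMonoid.lift (fun i : Fin 3 =>
      (op (MonoidAlgebra.single (1, op (FreeMonoid.of i)) 1 : A2 K 3)))) a =
      op (MonoidAlgebra.single (1, op a) 1) := by
    intro a
    induction a using FreeMonoid.inductionOn' with
    | one => rw [map_one]; rfl
    | of_mul x xs ih =>
      rw [map_mul, FreeMonoid.lift_eval_of, ih, ← op_mul, MonoidAlgebra.single_mul_single]
      rw [one_mul, Prod.mk_mul_mk, one_mul, ← op_mul]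
  unfold inr inrop evl
  rw [MonoidAlgebra.lift_single, h, ← op_smul, unop_op, MonoidAlgebra.smul_single, smul_eq_mul,
    mul_one]

theorem inr_add' (f g : A K 3) : inr (f + g) = inr f + inr g := by
  unfold inr; rw [map_add, unop_add]

theorem inr_zero' : inr (0 : A K 3) = 0 := by
  unfold inr; rw [map_zero, unop_zero]

theorem inr_sum' {ι : Type*} (s : Finset ι) (F : ι → A K 3) :
    inr (∑ i ∈ s, F i) = ∑ i ∈ s, inr (F i) := by
  classical
  induction s using Finset.induction_on with
  | empty => simp [inr_zero']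
  | insert a s ha ih => rw [Finset.sum_insert ha, Finset.sum_insert ha, inr_add', ih]

theorem lc_mul_inl (v : Wd 3) (T : A2 K 3) (g : A K 3) : lc v (T * inl g) = lc v T * g := by
  induction T using MonoidAlgebra.induction_linear with
  | zero => rw [zero_mul, lc_zero, zero_mul]
  | add S T hS hT => rw [add_mul, lc_add, hS, hT, lc_add, add_mul]
  | single p c =>
    obtain ⟨a, b⟩ := p
    induction b using MulOpposite.rec' with
    | h b => 
    induction g using MonoidAlgebra.induction_linear with
    | zero => rw [map_zero, mul_zero, lc_zero, mul_zero]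
    | add f g hf hg => rw [map_add, mul_add, lc_add, hf, hg, mul_add]
    | single x d =>
      rw [inl_single, MonoidAlgebra.single_mul_single, Prod.mk_mul_mk, mul_one]
      by_cases h : b = v
      · subst h
        rw [lc_single_same, lc_single_same, MonoidAlgebra.single_mul_single]
      · rw [lc_single_ne _ _ _ _ h, lc_single_ne _ _ _ _ h, zero_mul]

theorem lc_mul_inr_one (x v' : Wd 3) (T : A2 K 3) :
    lc (x * v') (T * inr (MonoidAlgebra.single x 1)) = lc v' T := by
  induction T using MonoidAlgebra.induction_linear with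
  | zero => rw [zero_mul, lc_zero, lc_zero]
  | add S T hS hT => rw [add_mul, lc_add, hS, hT, lc_add]
  | single p c =>
    obtain ⟨a, b⟩ := p
    induction b using MulOpposite.rec' with
    | h b =>
    rw [inr_single, MonoidAlgebra.single_mul_single, Prod.mk_mul_mk, mul_one, ← op_mul, mul_one]
    by_cases h : b = v'
    · subst h
      rw [lc_single_same, lc_single_same]
    · rw [lc_single_ne _ _ _ _ h, lc_single_ne]
      intro h2; exact h (mul_left_cancel h2)

theorem lc_mul_inr_zero (x v : Wd 3) (hv : ∀ v', v ≠ x * v') (T : A2 K 3) :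
    lc v (T * inr (MonoidAlgebra.single x 1)) = 0 := by
  induction T using MonoidAlgebra.induction_linear with
  | zero => rw [zero_mul, lc_zero]
  | add S T hS hT => rw [add_mul, lc_add, hS, hT, add_zero]
  | single p c =>
    obtain ⟨a, b⟩ := p
    induction b using MulOpposite.rec' with
    | h b =>
    rw [inr_single, MonoidAlgebra.single_mul_single, Prod.mk_mul_mk, mul_one, ← op_mul,
      lc_single_ne]
    intro h; exact hv b h.symm

/-- all words of `g` have length `l` -/
def LL (l : ℕ) (g : A K 3) : Prop := ∀ u ∈ g.coeff.support, u.toList.length = l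

theorem eq_sum (g : A K 3) :
    g = ∑ x ∈ g.coeff.support, g.coeff x • (MonoidAlgebra.single x 1 : A K 3) := by
  conv_lhs => rw [← MonoidAlgebra.sum_coeff_single g]
  unfold Finsupp.sum
  refine Finset.sum_congr rfl fun x _ => ?_
  rw [MonoidAlgebra.smul_single, smul_eq_mul, mul_one]

theorem smul_inr (c : K) (f : A K 3) : inr (c • f) = c • inr f := by
  unfold inr; rw [map_smul, unop_smul]

theorem len_mul (u v : Wd 3) : (u * v).toList.length = u.toList.length + v.toList.length := by
  rw [FreeMonoid.toList_mul, List.length_append]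

theorem mul_eq_of_len {x y v v' : Wd 3} (h : x * v = y * v')
    (hl : x.toList.length = y.toList.length) : x = y ∧ v = v' := by
  have h2 : x.toList ++ v.toList = y.toList ++ v'.toList := by
    rw [← FreeMonoid.toList_mul, ← FreeMonoid.toList_mul, h]
  have h3 := List.append_inj h2 hl
  exact ⟨FreeMonoid.toList.injective h3.1, FreeMonoid.toList.injective h3.2⟩

theorem lc_mul_inr (l : ℕ) (g : A K 3) (hg : LL l g) (x v' : Wd 3) (hx : x.toList.length = l)
    (T : A2 K 3) : lc (x * v') (T * inr g) = g.coeff x • lc v' T := by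
  classical
  conv_lhs => rw [eq_sum g]
  rw [inr_sum', Finset.mul_sum, lc_sum]
  have h1 : ∀ y ∈ g.coeff.support,
      lc (x * v') (T * inr (g.coeff y • (MonoidAlgebra.single y 1 : A K 3))) =
        if y = x then g.coeff x • lc v' T else 0 := by
    intro y hy
    rw [smul_inr, mul_smul_comm, lc_smul]
    by_cases h : y = x
    · subst h
      rw [if_pos rfl, lc_mul_inr_one]
    · rw [if_neg h, lc_mul_inr_zero, smul_zero]
      intro v2 hv2
      exact h (mul_eq_of_len hv2 (by rw [hx, hg y hy])).1.symm
  rw [Finset.sum_congr rfl h1, Finset.sum_ite_eq']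
  split_ifs with h2
  · rfl
  · rw [Finsupp.notMem_support_iff.1 h2, zero_smul]

theorem lc_mul_inr_lt (l : ℕ) (g : A K 3) (hg : LL l g) (v : Wd 3) (hv : v.toList.length < l)
    (T : A2 K 3) : lc v (T * inr g) = 0 := by
  classical
  conv_lhs => rw [eq_sum g]
  rw [inr_sum', Finset.mul_sum, lc_sum]
  refine Finset.sum_eq_zero fun y hy => ?_
  rw [smul_inr, mul_smul_comm, lc_smul, lc_mul_inr_zero, smul_zero]
  intro v2 hv2
  have h3 : v.toList.length = y.toList.length + v2.toList.length := by rw [hv2, len_mul]
  rw [hg y hy] at h3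
  omega

theorem coeff_mul_len (a b : A K 3) (u x : Wd 3) (hb : LL x.toList.length b) :
    (a * b).coeff (u * x) = a.coeff u * b.coeff x := by
  classical
  conv_lhs => rw [eq_sum b]
  rw [Finset.mul_sum, MonoidAlgebra.coeff_sum, Finsupp.finsetSum_apply]
  have h1 : ∀ y ∈ b.coeff.support,
      (a * (b.coeff y • (MonoidAlgebra.single y 1 : A K 3))).coeff (u * x) =
        if y = x then a.coeff u * b.coeff x else 0 := by
    intro y hy
    rw [MonoidAlgebra.smul_single, smul_eq_mul, mul_one]
    by_cases h : y = x
    · subst h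
      rw [if_pos rfl]
      exact MonoidAlgebra.coeff_mul_single_eq_coeff_mul u (fun m' _ => mul_left_inj y)
    · rw [if_neg h]
      refine MonoidAlgebra.coeff_mul_single_of_forall_mul_ne _ _ ?_
      intro d hd
      have h2 : d.toList ++ y.toList = u.toList ++ x.toList := by
        rw [← FreeMonoid.toList_mul, ← FreeMonoid.toList_mul, hd]
      have h3 := List.append_inj' h2 (hb y hy)
      exact h (FreeMonoid.toList.injective h3.2)
  rw [Finset.sum_congr rfl h1, Finset.sum_ite_eq']
  split_ifs with h2
  · rfl
  · rw [Finsupp.notMem_support_iff.1 h2, mul_zero]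

theorem LL_mul {l m : ℕ} {a b : A K 3} (ha : LL l a) (hb : LL m b) : LL (l + m) (a * b) := by
  classical
  intro u hu
  have h1 := MonoidAlgebra.support_coeff_mul_subset a b hu
  obtain ⟨p, hp, q, hq, rfl⟩ := Finset.mem_mul.1 h1
  rw [len_mul, ha p hp, hb q hq]

theorem LL_pow {l : ℕ} {g : A K 3} (hg : LL l g) (k : ℕ) : LL (k * l) (g ^ k) := by
  induction k with
  | zero =>
    intro u hu
    rw [pow_zero] at hu
    have h1 := MonoidAlgebra.support_coeff_one_subset hu
    rw [Finset.mem_one] at h1
    rw [h1]; simp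
  | succ k ih =>
    rw [pow_succ', Nat.succ_mul, add_comm]
    exact LL_mul hg ih

theorem exists_coeff {f : A K 3} (hf : f ≠ 0) : ∃ u, f.coeff u ≠ 0 := by
  by_contra h
  push Not at h
  exact hf (ext' fun u => by rw [h u]; rfl)

theorem coeff_one_ne (v : Wd 3) (hv : v ≠ 1) : (1 : A K 3).coeff v = 0 := by
  classical
  rw [MonoidAlgebra.one_def, MonoidAlgebra.coeff_single, Finsupp.single_apply, if_neg]
  exact fun h => hv h.symm

theorem div (K : Type*) [Field K] (w : Fin 3 → ℝ) (hw : Gen w) (h1 : DegFacts K w)
    (h2 : DegbFacts K w) (h3 : TopFacts K w) : DivStatement K w := by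
  intro g t G hg hg0 ht ht0 hG
  obtain ⟨l, hl⟩ := h3.len g hg
  obtain ⟨L, hL⟩ := h3.len t ht
  have hgne : g ≠ 0 := by
    rintro rfl; rw [h1.zero] at hg0; exact lt_irrefl _ hg0
  have htne : t ≠ 0 := by
    rintro rfl; rw [h1.zero] at ht0; exact lt_irrefl _ ht0
  have hpos : ∀ (f : A K 3) (m : ℕ), f ≠ 0 → Hom w f → 0 < dg w f → LL m f → 0 < m := by
    intro f m hf hhom hd hm
    obtain ⟨u, hu⟩ := exists_coeff hf
    have hu' : u ∈ f.coeff.support := Finsupp.mem_support_iff.2 hu
    rcases Nat.eq_zero_or_pos m with h0 | h0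
    · exfalso
      have h5 := hm u hu'
      rw [h0, List.length_eq_zero_iff] at h5
      have h6 := hhom u hu'
      unfold wt at h6
      rw [h5] at h6
      simp only [List.map_nil, List.sum_nil] at h6
      rw [← h6] at hd
      exact lt_irrefl _ hd
    · exact h0
  have hl0 : 0 < l := hpos g l hgne hg hg0 hl
  have hL0 : 0 < L := hpos t L htne ht ht0 hL
  -- the main equation
  have hinl : ∀ v, v ≠ 1 → lc v (inl t) = 0 := by
    intro v hv
    refine ext' fun u => ?_
    rw [lc_apply]
    have h5 := h2.cf t 1 u v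
    unfold tn at h5
    rw [h2.inrone, mul_one] at h5
    rw [h5, coeff_one_ne v hv, mul_zero]
    rfl
  have hinl1 : lc 1 (inl t) = t := by
    refine ext' fun u => ?_
    rw [lc_apply]
    have h5 := h2.cf t 1 u 1
    unfold tn at h5
    rw [h2.inrone, mul_one] at h5
    rw [h5, MonoidAlgebra.coeff_one_one, mul_one]
  have hinr : ∀ v, t.coeff v = 0 → lc v (inr t) = 0 := by
    intro v hv
    refine ext' fun u => ?_
    rw [lc_apply]
    have h5 := h2.cf 1 t u v
    unfold tn at h5
    rw [map_one, one_mul] at h5
    rw [h5, hv, mul_zero]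
    rfl
  have hzero : ∀ v : Wd 3, v.toList.length < L → t.coeff v = 0 := by
    intro v hv
    by_contra h
    have := hL v (Finsupp.mem_support_iff.2 h)
    omega
  have hmain : ∀ v : Wd 3, v.toList.length < L →
      lc v G * g = lc v (G * inr g) + lc v (inl t) := by
    intro v hv
    have h5 : lc v (G * dl g) = lc v (dl t) := by rw [hG]
    unfold dl at h5
    rw [mul_sub, lc_sub, lc_sub, lc_mul_inl, hinr v (hzero v hv), sub_zero] at h5
    rw [← h5]; abel
  have hcancel : ∀ a b : A K 3, a * g = b * g → a = b := by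
    intro a b hab
    have h5 : (a - b) * g = 0 := by rw [sub_mul, hab, sub_self]
    rcases h1.dom _ _ h5 with h6 | h6
    · exact sub_eq_zero.1 h6
    · exact absurd h6 hgne
  have hpow : ∀ k : ℕ, g ^ k ≠ 0 := by
    intro k
    induction k with
    | zero =>
      rw [pow_zero]
      intro h5
      have h6 : (1 : A K 3).coeff 1 = 0 := by rw [h5]; rfl
      rw [MonoidAlgebra.coeff_one_one] at h6
      exact one_ne_zero h6
    | succ k ih =>
      rw [pow_succ]
      intro h5
      rcases h1.dom _ _ h5 with h6 | h6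
      · exact ih h6
      · exact hgne h6
  have hclaim : ∀ k : ℕ, k * l < L → ∃ nk : A K 3, nk * g ^ (k + 1) = t ∧
      ∀ v : Wd 3, v.toList.length = k * l → lc v G = (g ^ k).coeff v • nk := by
    intro k
    induction k with
    | zero =>
      intro _
      refine ⟨lc 1 G, ?_, ?_⟩
      · rw [zero_add, pow_one, hmain 1 (by simpa using hL0),
          lc_mul_inr_lt l g hl 1 (by simpa using hl0), hinl1, zero_add]
      · intro v hv
        rw [zero_mul, List.length_eq_zero_iff] at hv
        have hv1 : v = 1 := FreeMonoid.toList.injective hv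
        rw [hv1, pow_zero, MonoidAlgebra.coeff_one_one, one_smul]
    | succ k ih =>
      intro hk
      have hk' : (k + 1) * l = k * l + l := Nat.succ_mul k l
      obtain ⟨nk, hnk, hv⟩ := ih (by omega)
      have hstep : ∀ v : Wd 3, v.toList.length = (k + 1) * l →
          lc v G * g = (g ^ (k + 1)).coeff v • nk := by
        intro v hvl
        set x : Wd 3 := FreeMonoid.ofList (v.toList.take l) with hx
        set v' : Wd 3 := FreeMonoid.ofList (v.toList.drop l) with hv'
        have hxv : v = x * v' := by
          apply FreeMonoid.toList.injective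
          rw [FreeMonoid.toList_mul, hx, hv', FreeMonoid.toList_ofList, FreeMonoid.toList_ofList,
            List.take_append_drop]
        have hxl : x.toList.length = l := by
          rw [hx, FreeMonoid.toList_ofList, List.length_take]
          omega
        have hvl' : v'.toList.length = k * l := by
          rw [hv', FreeMonoid.toList_ofList, List.length_drop]
          omega
        have hvne : v ≠ 1 := by
          rintro rfl
          have : (1 : Wd 3).toList.length = 0 := rfl
          omega
        rw [hmain v (by omega), hinl v hvne, add_zero, hxv, lc_mul_inr l g hl x v' hxl, hv v' hvl',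
          smul_smul, pow_succ', coeff_mul_len g (g ^ k) x v' (by rw [hvl']; exact LL_pow hl k)]
      obtain ⟨v0, hv0⟩ := exists_coeff (hpow (k + 1))
      have hv0l : v0.toList.length = (k + 1) * l :=
        LL_pow hl (k + 1) v0 (Finsupp.mem_support_iff.2 hv0)
      have hnext : (((g ^ (k + 1)).coeff v0)⁻¹ • lc v0 G) * g = nk := by
        rw [smul_mul_assoc, hstep v0 hv0l, smul_smul, inv_mul_cancel₀ hv0, one_smul]
      refine ⟨((g ^ (k + 1)).coeff v0)⁻¹ • lc v0 G, ?_, ?_⟩
      · rw [pow_succ' g (k + 1), ← mul_assoc, hnext, hnk]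
      · intro v hvl
        apply hcancel
        rw [hstep v hvl, smul_mul_assoc, hnext]
  obtain ⟨nk, hnk, -⟩ := hclaim ((L - 1) / l) (by
    have := Nat.div_mul_le_self (L - 1) l
    omega)
  set k := (L - 1) / l with hk
  have hkL : L ≤ (k + 1) * l := by
    have h5 : L - 1 < ((L - 1) / l + 1) * l := Nat.lt_mul_of_div_lt (Nat.lt_succ_self _) hl0
    rw [← hk] at h5
    omega
  obtain ⟨x, hx⟩ := exists_coeff (hpow (k + 1))
  have hxl : x.toList.length = (k + 1) * l := LL_pow hl (k + 1) x (Finsupp.mem_support_iff.2 hx)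
  have hone : ∀ u : Wd 3, u ≠ 1 → nk.coeff u = 0 := by
    intro u hu
    by_contra h
    have h5 : t.coeff (u * x) = nk.coeff u * (g ^ (k + 1)).coeff x := by
      rw [← hnk]
      exact coeff_mul_len nk _ u x (by rw [hxl]; exact LL_pow hl (k + 1))
    have h6 : t.coeff (u * x) ≠ 0 := by
      rw [h5]; exact mul_ne_zero h hx
    have h7 := hL (u * x) (Finsupp.mem_support_iff.2 h6)
    rw [len_mul, hxl] at h7
    have h8 : u.toList.length = 0 := by omega
    exact hu (FreeMonoid.toList.injective (List.length_eq_zero_iff.1 h8))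
  have hnk1 : nk = nk.coeff 1 • (1 : A K 3) := by
    refine ext' fun u => ?_
    rw [MonoidAlgebra.coeff_smul_apply]
    by_cases hu : u = 1
    · rw [hu, MonoidAlgebra.coeff_one_one, smul_eq_mul, mul_one]
    · rw [hone u hu, coeff_one_ne u hu, smul_zero]
  refine ⟨nk.coeff 1, k + 1, ?_⟩
  rw [← hnk]
  conv_lhs => rw [hnk1]
  rw [smul_mul_assoc, one_mul]

end Pool.Agent.Lib.MP_e1f7e2_al.FA.H10
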