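import Pool.Agent.Lib.MP_e1f7e2_al.FA.Iface

/-!
# Project FA: module SPAN
-/

set_option autoImplicit false

namespace Pool.Agent.Lib.MP_e1f7e2_al.FA.H10

variable {K : Type*} [Field K]

theorem lin_mem (f g r : A K 3) : r ∈ lin f g ↔ ∃ a b c : K, r = a • f + b • g + c • 1 := by
  unfold lin
  rw [Submodule.mem_span_insert]
  constructor
  · rintro ⟨c, z, hz, rfl⟩
    rw [Submodule.mem_span_pair] at hz
    obtain ⟨a, b, rfl⟩ := hz
    exact ⟨a, b, c, by abel⟩
  · rintro ⟨a, b, c, rfl⟩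
    refine ⟨c, a • f + b • g, Submodule.mem_span_pair.2 ⟨a, b, rfl⟩, by abel⟩

theorem sp_mem (f g h r : A K 3) :
    r ∈ sp f g h ↔ ∃ a b c d : K, r = a • f + b • g + c • h + d • 1 := by
  unfold sp
  rw [Submodule.mem_span_insert]
  constructor
  · rintro ⟨d, z, hz, rfl⟩
    rw [Submodule.mem_span_insert] at hz
    obtain ⟨a, z', hz', rfl⟩ := hz
    rw [Submodule.mem_span_pair] at hz'
    obtain ⟨b, c, rfl⟩ := hz'
    exact ⟨a, b, c, d, by abel⟩
  · rintro ⟨a, b, c, d, rfl⟩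
    refine ⟨d, a • f + (b • g + c • h), Submodule.mem_span_insert.2
      ⟨a, b • g + c • h, Submodule.mem_span_pair.2 ⟨b, c, rfl⟩, rfl⟩, by abel⟩

theorem B_f (f g : A K 3) : f ∈ B f g := Algebra.subset_adjoin (by simp)
theorem B_g (f g : A K 3) : g ∈ B f g := Algebra.subset_adjoin (by simp)

theorem aeval_mem {S : Subalgebra K (A K 3)} {g : A K 3} (hg : g ∈ S) (R : Polynomial K) :
    Polynomial.aeval g R ∈ S := by
  induction R using Polynomial.induction_on' with
  | add p q hp hq => rw [map_add]; exact S.add_mem hp hq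
  | monomial n a =>
    rw [Polynomial.aeval_monomial]
    exact S.mul_mem (S.algebraMap_mem a) (S.pow_mem hg n)

theorem B_le {f g : A K 3} {S : Subalgebra K (A K 3)} (hf : f ∈ S) (hg : g ∈ S) : B f g ≤ S := by
  unfold B
  rw [Algebra.adjoin_le_iff]
  intro x hx
  rcases hx with rfl | hx
  · exact hf
  · rw [Set.mem_singleton_iff] at hx
    rw [hx]; exact hg

theorem lin_B {f g r : A K 3} (h : r ∈ lin f g) : r ∈ B f g := by
  obtain ⟨a, b, c, rfl⟩ := (lin_mem f g r).1 h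
  exact (B f g).add_mem ((B f g).add_mem ((B f g).smul_mem (B_f f g) a)
    ((B f g).smul_mem (B_g f g) b)) ((B f g).smul_mem (B f g).one_mem c)

theorem f_lin (f g : A K 3) : f ∈ lin f g := (lin_mem f g f).2 ⟨1, 0, 0, by simp⟩
theorem g_lin (f g : A K 3) : g ∈ lin f g := (lin_mem f g g).2 ⟨0, 1, 0, by simp⟩
theorem one_lin (f g : A K 3) : 1 ∈ lin f g := (lin_mem f g 1).2 ⟨0, 0, 1, by simp⟩

theorem f_sp (f g h : A K 3) : f ∈ sp f g h := (sp_mem f g h f).2 ⟨1, 0, 0, 0, by simp⟩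
theorem g_sp (f g h : A K 3) : g ∈ sp f g h := (sp_mem f g h g).2 ⟨0, 1, 0, 0, by simp⟩
theorem h_sp (f g h : A K 3) : h ∈ sp f g h := (sp_mem f g h h).2 ⟨0, 0, 1, 0, by simp⟩
theorem one_sp (f g h : A K 3) : 1 ∈ sp f g h := (sp_mem f g h 1).2 ⟨0, 0, 0, 1, by simp⟩

theorem lin_le {f g : A K 3} {S : Submodule K (A K 3)} (hf : f ∈ S) (hg : g ∈ S) (h1 : 1 ∈ S) :
    lin f g ≤ S := by
  intro r hr
  obtain ⟨a, b, c, rfl⟩ := (lin_mem f g r).1 hr
  exact S.add_mem (S.add_mem (S.smul_mem a hf) (S.smul_mem b hg)) (S.smul_mem c h1)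

theorem sp_le {f g h : A K 3} {S : Submodule K (A K 3)} (hf : f ∈ S) (hg : g ∈ S) (hh : h ∈ S)
    (h1 : 1 ∈ S) : sp f g h ≤ S := by
  intro r hr
  obtain ⟨a, b, c, d, rfl⟩ := (sp_mem f g h r).1 hr
  exact S.add_mem (S.add_mem (S.add_mem (S.smul_mem a hf) (S.smul_mem b hg)) (S.smul_mem c hh))
    (S.smul_mem d h1)

theorem lin_sp (f g h : A K 3) : lin f g ≤ sp f g h :=
  lin_le (f_sp f g h) (g_sp f g h) (one_sp f g h)

theorem span (K : Type*) [Field K] : SpanFacts K where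
  bcomm f g := by
    unfold B
    rw [Set.pair_comm]
  bel f g c R hc := by
    refine le_antisymm (B_le ?_ (B_g f g)) (B_le ?_ (B_g _ g))
    · exact (B f g).add_mem ((B f g).smul_mem (B_f f g) c) (aeval_mem (B_g f g) R)
    · set S := B (c • f + Polynomial.aeval g R) g with hS
      have h1 : c • f + Polynomial.aeval g R ∈ S := B_f _ g
      have h2 : Polynomial.aeval g R ∈ S := aeval_mem (B_g _ g) R
      have h3 : f = c⁻¹ • ((c • f + Polynomial.aeval g R) - Polynomial.aeval g R) := by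
        rw [add_sub_cancel_right, smul_smul, inv_mul_cancel₀ hc, one_smul]
      rw [h3]
      exact S.smul_mem (S.sub_mem h1 h2) _
  bf := B_f
  bg := B_g
  bpoly f g R := aeval_mem (B_g f g) R
  blin f g f' g' h := by
    refine le_antisymm (B_le ?_ ?_) (B_le ?_ ?_)
    · exact lin_B (h ▸ f_lin f g)
    · exact lin_B (h ▸ g_lin f g)
    · exact lin_B (h ▸ f_lin f' g')
    · exact lin_B (h ▸ g_lin f' g')
  linB f g r h := lin_B h
  linmem := lin_mem
  spmem := sp_mem
  lcomm f g := le_antisymm (lin_le (g_lin g f) (f_lin g f) (one_lin g f))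
    (lin_le (g_lin f g) (f_lin f g) (one_lin f g))
  lel f g a b c ha := by
    refine le_antisymm (lin_le ((lin_mem f g _).2 ⟨a, b, c, rfl⟩) (g_lin f g) (one_lin f g))
      (lin_le ?_ (g_lin _ g) (one_lin _ g))
    refine (lin_mem _ g f).2 ⟨a⁻¹, -(a⁻¹ * b), -(a⁻¹ * c), ?_⟩
    rw [smul_add, smul_add, smul_smul, smul_smul, smul_smul, inv_mul_cancel₀ ha, one_smul, neg_smul,
      neg_smul]
    abel
  scomm f g h := le_antisymm (sp_le (g_sp g f h) (f_sp g f h) (h_sp g f h) (one_sp g f h))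
    (sp_le (g_sp f g h) (f_sp f g h) (h_sp f g h) (one_sp f g h))
  scomm' f g h := le_antisymm (sp_le (f_sp f h g) (h_sp f h g) (g_sp f h g) (one_sp f h g))
    (sp_le (f_sp f g h) (h_sp f g h) (g_sp f g h) (one_sp f g h))
  sel f g h r c hc hr := by
    have h1 : r ∈ sp f g h := lin_sp f g h hr
    refine le_antisymm (sp_le (f_sp f g h) (g_sp f g h) ?_ (one_sp f g h))
      (sp_le (f_sp f g _) (g_sp f g _) ?_ (one_sp f g _))
    · exact (sp f g h).add_mem ((sp f g h).smul_mem c (h_sp f g h)) h1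
    · have h2 : c • h + r ∈ sp f g (c • h + r) := h_sp f g _
      have h3 : r ∈ sp f g (c • h + r) := lin_sp f g _ hr
      have h4 : h = c⁻¹ • ((c • h + r) - r) := by
        rw [add_sub_cancel_right, smul_smul, inv_mul_cancel₀ hc, one_smul]
      have h5 : c⁻¹ • ((c • h + r) - r) ∈ sp f g (c • h + r) :=
        (sp f g (c • h + r)).smul_mem _ ((sp f g (c • h + r)).sub_mem h2 h3)
      rwa [← h4] at h5
  slin f g f' g' h hl := by
    refine le_antisymm (sp_le ?_ ?_ (h_sp f' g' h) (one_sp f' g' h))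
      (sp_le ?_ ?_ (h_sp f g h) (one_sp f g h))
    · exact lin_sp f' g' h (hl ▸ f_lin f g)
    · exact lin_sp f' g' h (hl ▸ g_lin f g)
    · exact lin_sp f g h (hl ▸ f_lin f' g')
    · exact lin_sp f g h (hl ▸ g_lin f' g')

end Pool.Agent.Lib.MP_e1f7e2_al.FA.H10
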